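import Pool.Agent.Lib_helper88.MarginalProof

set_option autoImplicit false

/-!
# Marginal scenarios all of whose polymatroids extend (MP_e7d137_lc, Q1)

A marginal scenario `M` on `{0, ..., n-1}` is a downward closed family of subsets containing `∅`.
The scenarios `M` all of whose polymatroids-on-`M` extend to a polymatroid on the whole ground set
are exactly the Vorob'ev-regular ones in which any two distinct facets `F, G` satisfy
`|F ∩ G| ≤ 1` or `|F ∪ G| ≤ 4`.
-/

namespace Pool.Agent.Results.MP_e7d137_lc.Characterization

open Finset
open Pool.Agent.MarginalPolymatroid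

/-- **Characterization.** For every marginal scenario `M` on `n` elements: every polymatroid on `M`
extends to a polymatroid on all subsets if and only if `M` is Vorob'ev-regular and any two distinct
facets `F, G` of `M` satisfy `|F ∩ G| ≤ 1` or `|F ∪ G| ≤ 4`. -/
theorem result : ∀ (n : ℕ) (M : Finset (Finset (Fin n))), IsScenario M →
    ((∀ g : Finset (Fin n) → ℝ, IsPartialPolymatroid M g → NonContextual M g) ↔
      (VorobevRegular M ∧
        ∀ F G : Finset (Fin n), IsFacet M F → IsFacet M G → F ≠ G →
          (F ∩ G).card ≤ 1 ∨ (F ∪ G).card ≤ 4)) :=
  fun _ _ hM => characterization hM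

end Pool.Agent.Results.MP_e7d137_lc.Characterization
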