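import Pool.Agent.Lib_helper88.MarginalProof

set_option autoImplicit false

namespace Pool.Agent.Results.MP_e7d137_lc.RegularContextual

open Finset
open Pool.Agent.MarginalPolymatroid

/-- The scenario on five points whose facets are `{0,1,2,3}` and `{0,1,2,4}`. -/
def twoFacets : Finset (Finset (Fin 5)) :=
  ({0, 1, 2, 3} : Finset (Fin 5)).powerset ∪ ({0, 1, 2, 4} : Finset (Fin 5)).powerset

lemma twoFacets_scenario : IsScenario twoFacets := by
  refine ⟨by decide, ?_⟩
  intro S hS T hT
  simp only [twoFacets, Finset.mem_union, Finset.mem_powerset] at hS ⊢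
  rcases hS with h | h
  · left; exact hT.trans h
  · right; exact hT.trans h

lemma twoFacets_facet (S : Finset (Fin 5)) :
    IsFacet twoFacets S ↔ (S = {0, 1, 2, 3} ∨ S = {0, 1, 2, 4}) := by
  constructor
  · rintro ⟨h1, h2⟩
    have h1' := h1
    simp only [twoFacets, Finset.mem_union, Finset.mem_powerset] at h1'
    rcases h1' with h | h
    · left
      exact h2 _ (by decide) h
    · right
      exact h2 _ (by decide) h
  · have key : ∀ G ∈ twoFacets, (({0, 1, 2, 3} : Finset (Fin 5)) ⊆ G → ({0, 1, 2, 3} : Finset (Fin 5)) = G) ∧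
        (({0, 1, 2, 4} : Finset (Fin 5)) ⊆ G → ({0, 1, 2, 4} : Finset (Fin 5)) = G) := by
      decide
    rintro (rfl | rfl)
    · exact ⟨by decide, fun G hG => (key G hG).1⟩
    · exact ⟨by decide, fun G hG => (key G hG).2⟩

lemma twoFacets_regular : VorobevRegular twoFacets := by
  refine ⟨2, ![{0, 1, 2, 3}, {0, 1, 2, 4}], ?_, ?_, ?_⟩
  · decide
  · intro S
    rw [twoFacets_facet]
    constructor
    · rintro (rfl | rfl)
      · exact ⟨0, rfl⟩
      · exact ⟨1, rfl⟩
    · rintro ⟨j, rfl⟩
      fin_cases j
      · left; rfl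
      · right; rfl
  · intro j hj
    refine ⟨0, ?_, ?_⟩
    · exact Fin.lt_def.mpr hj
    · fin_cases j
      · exact absurd hj (by decide)
      · decide

/-- `twoFacets` is a Vorob'ev-regular marginal scenario that carries a contextual polymatroid. -/
theorem result : IsScenario twoFacets ∧ VorobevRegular twoFacets ∧
    ∃ g : Finset (Fin 5) → ℝ, IsPartialPolymatroid twoFacets g ∧ ¬ NonContextual twoFacets g := by
  refine ⟨twoFacets_scenario, twoFacets_regular, ?_⟩
  by_contra h
  push Not at h
  have h2 := (characterization twoFacets_scenario).mp h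
  have h3 := h2.2 {0, 1, 2, 3} {0, 1, 2, 4} ((twoFacets_facet _).mpr (Or.inl rfl))
    ((twoFacets_facet _).mpr (Or.inr rfl)) (by decide)
  revert h3
  decide

end Pool.Agent.Results.MP_e7d137_lc.RegularContextual
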